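import Mathlib

/-! Partial oscillator death coexists with partial locking in the Winfree model. -/

set_option autoImplicit false

namespace Pool.Agent.Results.MP_3a3e96_an.Coexist

open Set Filter Topology Real

/-- `Θ` solves the Winfree model on `[0, ∞)` with initial datum `Θ₀` -/
def IsSol {N : ℕ} (ω : Fin N → ℝ) (κ : ℝ) (Θ₀ : Fin N → ℝ) (Θ : ℝ → Fin N → ℝ) : Prop :=
  Θ 0 = Θ₀ ∧ ∀ i, ContinuousOn (fun t => Θ t i) (Ici 0) ∧
    ∀ t > 0, HasDerivAt (fun s => Θ s i) (ω i - κ / N * ∑ j, (1 + cos (Θ t j)) * sin (Θ t i)) t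

/-- `C`-partial oscillator locking -/
def Locking {N : ℕ} (C : Finset (Fin N)) (Θ : ℝ → Fin N → ℝ) : Prop :=
  (∀ i ∈ C, ∀ j ∈ C, ∃ M, ∀ t ≥ 0, |Θ t i - Θ t j| ≤ M) ∧ ∀ i ∈ C, ¬Tendsto (fun t => Θ t i / t) atTop (𝓝 0)

/-- `B`-partial oscillator death -/
def Death {N : ℕ} (B : Finset (Fin N)) (Θ : ℝ → Fin N → ℝ) : Prop := ∀ i ∈ B, ∃ M, ∀ t ≥ 0, |Θ t i| ≤ M

lemma barrier {ι : Type} [Finite ι] {h : ι → ℝ → ℝ} (hc : ∀ k, ContinuousOn (h k) (Ici 0)) (h0 : ∀ k, h k 0 < 0)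
    (hd : ∀ t > 0, (∀ l, h l t ≤ 0) → ∀ k, h k t = 0 → ∃ d < 0, HasDerivAt (h k) d t) : ∀ t ≥ 0, ∀ k, h k t < 0 := by
  by_contra hn
  push Not at hn
  have cl : IsClosed (⋃ k, Ici 0 ∩ h k ⁻¹' Ici 0) :=
    isClosed_iUnion_of_finite fun k => (hc k).preimage_isClosed_of_isClosed isClosed_Ici isClosed_Ici
  have bd : BddBelow (⋃ k, Ici 0 ∩ h k ⁻¹' Ici 0) := ⟨0, fun t ht => (mem_iUnion.1 ht).choose_spec.1⟩
  obtain ⟨t₁, a, k₁, b⟩ := hn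
  obtain ⟨k, t0, hk⟩ := mem_iUnion.1 (cl.csInf_mem ⟨t₁, mem_iUnion.2 ⟨k₁, a, b⟩⟩ bd)
  have lt : ∀ s, 0 ≤ s → s < sInf (⋃ k, Ici 0 ∩ h k ⁻¹' Ici 0) → ∀ l, h l s < 0 := fun s s0 hs l =>
    not_le.1 fun e => hs.not_ge (csInf_le bd (mem_iUnion.2 ⟨l, s0, e⟩))
  generalize sInf (⋃ k, Ici 0 ∩ h k ⁻¹' Ici 0) = t at t0 hk lt
  have tp : 0 < t := lt_of_le_of_ne t0 fun e => (h0 k).not_ge (by rwa [← e] at hk)
  have ev : ∀ᶠ s in 𝓝[<] t, s ∈ Ioo 0 t := Ioo_mem_nhdsLT tp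
  have le : ∀ l, h l t ≤ 0 := fun l =>
    le_of_tendsto (((hc l).continuousAt (Ici_mem_nhds tp)).tendsto.mono_left (nhdsWithin_le_nhds (s := Iio t)))
      (ev.mono fun s hs => (lt s hs.1.le hs.2 l).le)
  obtain ⟨d, d0, hd⟩ := hd t tp le k (le_antisymm (le k) hk)
  refine d0.not_ge (ge_of_tendsto (hasDerivAt_iff_tendsto_slope_left_right.1 hd).1 (ev.mono fun s hs => ?_))
  rw [slope_def_field, le_antisymm (le k) hk]
  exact div_nonneg_of_nonpos (by linarith [lt s hs.1.le hs.2 k]) (by linarith [hs.2])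

lemma sin_sub_ge {x y φ δ : ℝ} (hx : |x - φ| ≤ δ) (hy : |y - φ| ≤ δ) (h : y ≤ x) :
    (cos φ - δ) * (x - y) ≤ sin x - sin y := by
  refine (convex_Icc y x).mul_sub_le_image_sub_of_le_deriv continuous_sin.continuousOn
    differentiable_sin.differentiableOn (fun z hz => ?_) y (left_mem_Icc.2 h) x (right_mem_Icc.2 h) h
  have hz := interior_subset hz
  have : |z - φ| ≤ δ := abs_le.2 ⟨by linarith [(abs_le.1 hy).1, hz.1], by linarith [(abs_le.1 hx).2, hz.2]⟩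
  rw [Real.deriv_sin]
  linarith [(abs_le.1 ((abs_cos_sub_cos_le z φ).trans this)).1]

lemma key {β ρ e c s p : ℝ} (β0 : 0 ≤ β) (ρ0 : 5 / 8 ≤ ρ) (βρ : β + ρ ≤ 1) (he : |e| ≤ 1 / 50 + 1 / 8)
    (cs : s ^ 2 + c ^ 2 = 1) (hp : |p - 1| ≤ 1 / 400) :
    1 / 100 ≤ (1 + β + ρ * c + e) * (c - 1 / 50) * (1 - 1 / 1000 * ((1 + β) * s + ρ / 2 * (s * c))) -
      ((1 + β) * c + ρ / 2 * (c * c + s * -s)) * p := by
  have c1 : |c| ≤ 1 := abs_le.2 ⟨by nlinarith, by nlinarith⟩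
  have s1 : |s| ≤ 1 := abs_le.2 ⟨by nlinarith, by nlinarith⟩
  have m : ∀ {x y a b : ℝ}, |x| ≤ a → |y| ≤ b → |x * y| ≤ a * b := fun hx hy => by
    rw [abs_mul]; exact mul_le_mul hx hy (abs_nonneg _) ((abs_nonneg _).trans hx)
  have b2 : |1 + β| ≤ 2 := abs_le.2 ⟨by linarith, by linarith⟩
  have r1 : |ρ| ≤ 1 := abs_le.2 ⟨by linarith, by linarith⟩
  have r2 : |ρ / 2| ≤ 1 / 2 := abs_le.2 ⟨by linarith, by linarith⟩
  have hR : |1 + β + ρ * c + e| ≤ 3 := abs_le.2 ⟨by nlinarith [abs_le.1 c1, abs_le.1 he],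
    by nlinarith [abs_le.1 c1, abs_le.1 he]⟩
  have hG : |(1 + β) * s + ρ / 2 * (s * c)| ≤ 2 * 1 + 1 / 2 * (1 * 1) :=
    (abs_add_le ..).trans (add_le_add (m b2 s1) (m r2 (m s1 c1)))
  have hG' : |(1 + β) * c + ρ / 2 * (c * c + s * -s)| ≤ 2 * 1 + 1 / 2 * 1 :=
    (abs_add_le ..).trans (add_le_add (m b2 c1) (m r2 (abs_le.2 ⟨by nlinarith, by nlinarith⟩)))
  have hc : |c - 1 / 50| ≤ 2 := abs_le.2 ⟨by linarith [abs_le.1 c1], by linarith [abs_le.1 c1]⟩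
  have h1 := (abs_le.1 (m (m hR hc) hG)).2
  have h2 := (abs_le.1 (m hG' hp)).2
  have h3 := (abs_le.1 (m he c1)).1
  have h4 := (abs_le.1 hR).2
  have h5 : ρ * s ^ 2 = ρ * (1 - c ^ 2) := by rw [← cs]; ring
  nlinarith

theorem result : ∃ ρ₁ ρ₂ γ κ : ℝ, ρ₁ ∈ Ioc (0 : ℝ) 1 ∧ ρ₂ ∈ Ioc (0 : ℝ) 1 ∧ γ ∈ Ioc (0 : ℝ) 1 ∧ ρ₁ + ρ₂ < 1 ∧ 0 < κ ∧
    ∀ N : ℕ, 1 ≤ N → ∀ (ω : Fin N → ℝ) (B C : Finset (Fin N)), Disjoint B C → ρ₁ * N ≤ B.card → ρ₂ * N ≤ C.card →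
      (∀ i ∈ B, ω i ∈ Icc (-γ) γ) → (∀ i ∈ C, ω i ∈ Icc (1 - γ) (1 + γ)) →
      ∃ Θ₀ : Fin N → ℝ, ∀ Θ, IsSol ω κ Θ₀ Θ → Death B Θ ∧ Locking C Θ := by
  refine ⟨1 / 4, 5 / 8, 1 / 10 ^ 8, 1 / 1000, by norm_num, by norm_num, by norm_num, by norm_num, by norm_num, ?_⟩
  intro N hN ω B C dj hB hC wB wC
  refine ⟨0, fun Θ ⟨h0, hΘ⟩ => ?_⟩
  have N0 : (0 : ℝ) < N := by exact_mod_cast hN
  obtain ⟨i₀, hi₀⟩ : C.Nonempty := Finset.card_pos.1 (by exact_mod_cast (show (0 : ℝ) < C.card by linarith))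
  set β : ℝ := B.card / N
  set ρ : ℝ := C.card / N
  have β0 : 1 / 4 ≤ β := (le_div_iff₀ N0).2 hB
  have ρ0 : 5 / 8 ≤ ρ := (le_div_iff₀ N0).2 hC
  have cd : (B.card : ℝ) + C.card + (B ∪ C)ᶜ.card = N := by
    rw [← Nat.cast_add, ← Finset.card_union_of_disjoint dj, ← Nat.cast_add, Finset.card_add_card_compl]; simp
  have βρ : β + ρ ≤ 1 := by
    rw [← add_div, div_le_one N0]; linarith [((B ∪ C)ᶜ.card).cast_nonneg (α := ℝ)]
  let R : ℝ → ℝ := fun t => (∑ j, (1 + cos (Θ t j))) / N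
  have dΘ : ∀ i, ∀ t > 0, HasDerivAt (fun s => Θ s i) (ω i - 1 / 1000 * R t * sin (Θ t i)) t := fun i t ht =>
    ((hΘ i).2 t ht).congr_deriv (by simp only [R, ← Finset.sum_mul]; ring)
  have R0 : ∀ t, 0 ≤ R t := fun t =>
    div_nonneg (Finset.sum_nonneg fun j _ => by linarith [neg_one_le_cos (Θ t j)]) N0.le
  have R2 : ∀ t, R t ≤ 2 := fun t => (div_le_iff₀ N0).2 <| by
    have : ∑ j, (1 + cos (Θ t j)) ≤ ∑ _j : Fin N, (2 : ℝ) := Finset.sum_le_sum fun j _ => by linarith [cos_le_one (Θ t j)]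
    simpa [mul_comm] using this
  have sp : ∀ i ∈ C, ∀ t, |ω i - 1 / 1000 * R t * sin (Θ t i) - 1| ≤ 1 / 400 := fun i hi t => abs_le.2 <| by
    constructor <;> nlinarith [(wC i hi).1, (wC i hi).2, R0 t, R2 t, sin_le_one (Θ t i), neg_one_le_sin (Θ t i)]
  let G : ℝ → ℝ := fun x => (1 + β) * sin x + ρ / 2 * (sin x * cos x)
  have G1 : ∀ x, |G x| ≤ 3 := fun x => abs_le.2 <| by
    have : |sin x * cos x| ≤ 1 := by rw [abs_mul]; exact mul_le_one₀ (abs_sin_le_one _) (abs_nonneg _) (abs_cos_le_one _)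
    simp only [G]
    constructor <;> nlinarith [abs_le.1 this, sin_le_one x, neg_one_le_sin x]
  let h : C × C ⊕ B → ℝ → ℝ := Sum.elim
    (fun p t => Θ t p.1 - Θ t p.2 - 1 / 100 * (1 - 1 / 1000 * G (Θ t i₀))) fun i t => Θ t i ^ 2 - (1 / 5) ^ 2
  have aC : ∀ t, (∀ l, h l t ≤ 0) → ∀ i ∈ C, ∀ j ∈ C, |Θ t i - Θ t j| ≤ 1 / 50 := fun t H i hi j hj => by
    have h1 := H (.inl (⟨i, hi⟩, ⟨j, hj⟩))
    have h2 := H (.inl (⟨j, hj⟩, ⟨i, hi⟩))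
    simp only [h, Sum.elim_inl] at h1 h2
    exact abs_le.2 ⟨by linarith [abs_le.1 (G1 (Θ t i₀))], by linarith [abs_le.1 (G1 (Θ t i₀))]⟩
  have aB : ∀ t, (∀ l, h l t ≤ 0) → ∀ i ∈ B, Θ t i ^ 2 ≤ (1 / 5) ^ 2 := fun t H i hi => by
    have h1 := H (.inr ⟨i, hi⟩)
    simp only [h, Sum.elim_inr] at h1
    linarith
  have cΘ := fun i => (hΘ i).1
  have inv := barrier (h := h) (by rintro (p | i) <;> simp only [h, G, Sum.elim_inl, Sum.elim_inr] <;> fun_prop)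
    (by rintro (p | i) <;> simp [h, G, h0]) ?_
  · refine ⟨fun i hi => ⟨1 / 5, fun t ht => abs_le_of_sq_le_sq' (aB t (fun l => (inv t ht l).le) i hi) (by norm_num)
      |> abs_le.2⟩, fun i hi j hj => ⟨_, fun t ht => aC t (fun l => (inv t ht l).le) i hi j hj⟩, fun i hi T => ?_⟩
    have mo : MonotoneOn (fun t => Θ t i - t / 2) (Ici 0) := by
      have d : ∀ s ∈ interior (Ici (0 : ℝ)), HasDerivAt (fun t => Θ t i - t / 2) (_ - 1 / 2) s := fun s hs =>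
        (dΘ i s (by simpa using hs)).sub ((hasDerivAt_id s).div_const 2)
      refine monotoneOn_of_deriv_nonneg (convex_Ici 0) ((cΘ i).sub (by fun_prop))
        (fun s hs => (d s hs).differentiableAt.differentiableWithinAt) fun s hs => ?_
      rw [(d s hs).deriv]
      linarith [abs_le.1 (sp i hi s)]
    refine absurd (ge_of_tendsto T ((eventually_gt_atTop 0).mono fun t ht => ?_)) (by norm_num : ¬(1 / 2 : ℝ) ≤ 0)
    have := mo (mem_Ici.2 le_rfl) ht.le ht.le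
    simp only [h0, Pi.zero_apply] at this
    rw [le_div_iff₀ ht]
    linarith
  intro t ht H
  have cB : ∀ j ∈ B, 1 - 1 / 50 ≤ cos (Θ t j) := fun j hj => by
    linarith [one_sub_sq_div_two_le_cos (x := Θ t j), aB t H j hj]
  rintro (⟨⟨i, hi⟩, j, hj⟩ | ⟨i, hi⟩) e <;> simp only [h, Sum.elim_inl, Sum.elim_inr] at e ⊢
  · have dφ := dΘ i₀ t ht
    refine ⟨_, ?_, ((dΘ i t ht).sub (dΘ j t ht)).sub
      ((((dφ.sin.const_mul _).add ((dφ.sin.mul dφ.cos).const_mul _)).const_mul _).const_sub _ |>.const_mul _)⟩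
    have hR : |R t - (1 + β + ρ * cos (Θ t i₀))| ≤ 1 / 50 + 1 / 8 := by
      have s1 : ∑ j, (1 + cos (Θ t j)) = N + ∑ j ∈ B, cos (Θ t j) + ∑ j ∈ C, cos (Θ t j) +
          ∑ j ∈ (B ∪ C)ᶜ, cos (Θ t j) := by
        rw [Finset.sum_add_distrib, ← Finset.sum_add_sum_compl (B ∪ C) fun j => cos (Θ t j), Finset.sum_union dj]
        simp [add_assoc]
      have bd : ∀ (S : Finset (Fin N)) (c r : ℝ), (∀ j ∈ S, |cos (Θ t j) - c| ≤ r) →
          |∑ j ∈ S, cos (Θ t j) - S.card * c| ≤ S.card * r := fun S c r hS => by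
        simpa [Finset.sum_sub_distrib] using (Finset.abs_sum_le_sum_abs _ S).trans (Finset.sum_le_sum hS)
      have b1 := abs_le.1 (bd B 1 (1 / 50) fun j hj => abs_le.2 ⟨by linarith [cB j hj], by linarith [cos_le_one (Θ t j)]⟩)
      have b2 := abs_le.1 (bd C _ (1 / 50) fun j hj => (abs_cos_sub_cos_le ..).trans (aC t H j hj i₀ hi₀))
      have b3 := abs_le.1 (bd (B ∪ C)ᶜ 0 1 fun j _ => by simpa using abs_cos_le_one _)
      have : R t - (1 + β + ρ * cos (Θ t i₀)) =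
          (∑ j, (1 + cos (Θ t j)) - (N + B.card + C.card * cos (Θ t i₀))) / N := by simp only [R, β, ρ]; field_simp
      rw [this, abs_div, abs_of_pos N0, div_le_iff₀ N0, s1, abs_le]
      constructor <;> linarith [((B ∪ C)ᶜ.card).cast_nonneg (α := ℝ)]
    have k := key (by linarith) ρ0 βρ hR (sin_sq_add_cos_sq (Θ t i₀)) (sp i₀ hi₀ t)
    have g := abs_le.1 (G1 (Θ t i₀))
    have ss := mul_le_mul_of_nonneg_left (sin_sub_ge (aC t H i hi i₀ hi₀) (aC t H j hj i₀ hi₀) (by linarith)) (R0 t)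
    rw [show Θ t i - Θ t j = _ from sub_eq_zero.1 e] at ss
    simp only [G, add_sub_cancel] at k ss
    linarith [(wC i hi).2, (wC j hj).1]
  · refine ⟨_, ?_, ((dΘ i t ht).pow 2).sub_const _⟩
    have hR : 1 / 4 ≤ R t := β0.trans <| div_le_div_of_nonneg_right (by
      refine le_trans ?_ (Finset.sum_le_sum_of_subset_of_nonneg B.subset_univ fun j _ _ => by
        linarith [neg_one_le_cos (Θ t j)])
      simpa using Finset.card_nsmul_le_sum B (fun j => 1 + cos (Θ t j)) 1 fun j hj => by linarith [cB j hj]) N0.le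
    have s5 : 1 / 10 ≤ sin (1 / 5) := by linarith [sin_gt_sub_cube (x := 1 / 5) (by norm_num)]
    rcases sq_eq_sq_iff_eq_or_eq_neg.1 (sub_eq_zero.1 e) with e | e <;> rw [e] <;> norm_num <;>
      nlinarith [(wB i hi).1, (wB i hi).2]

end Pool.Agent.Results.MP_3a3e96_an.Coexist
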